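import Pool.Agent.W251.EX.Defs
import Pool.Agent.W125.EC.Btm

/-!
Project EX (helper251), BTMX: the main term of the bilinear estimate for a real function. Port of
W125/EC/Cell, Core, Btm.
-/

set_option autoImplicit false
set_option linter.unusedVariables false

namespace Pool.Agent.W672.EX

open Finset Filter
open Pool.Agent.H376R2.MR
open Pool.Agent.W78.GA
open Pool.Agent.W78.EC
open Pool.Agent.W125.EC
open Pool.Agent.W251.EX (Per Mrs Btm)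
open Pool.Agent.W714.EC (hD01 nmZ decomp mem_cone mem_edge edge_unique)

open scoped Classical in
/-- the consequence of the Matomaki-Radziwill theorem -/
lemma mrs_allX {aa : Gi → ℝ} (h1 : Mrs aa) {M : ℕ} {S : Gi → Gi → Prop} (hF : Fam M S) {s₁ s₂ : ℝ} (hs₁ : 0 < s₁)
    (h12 : s₁ < s₂) (hs₂ : s₂ ≤ 1) {I : ℕ} (hI : 1 ≤ I) {ε : ℝ} (hε : 0 < ε) :
    ∃ H : ℝ, 1 ≤ H ∧ ∃ X₀ : ℝ, ∀ X : ℝ, X₀ ≤ X → ∀ n : ℕ, 1 ≤ n → n * H ≤ X →
      ∑ p ∈ range I ×ˢ range (n + 1), ∑ r ∈ RR M,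
        absS (An s₁ s₂ X) (idx s₁ s₂ X I n) p (fun z => S z r) aa ≤
        (range I ×ˢ RR M).card * (ε * X) := by
  have hI' : (0 : ℝ) < I := by exact_mod_cast hI
  have key : ∀ k ∈ range I ×ˢ RR M, ∃ H : ℝ, 1 ≤ H ∧ ∃ X₀ : ℝ, ∀ X : ℝ, X₀ ≤ X → ∀ n : ℕ,
      1 ≤ n → n * H ≤ X → ∑ j ∈ range (n + 1),
        absS (An s₁ s₂ X) (idx s₁ s₂ X I n) (k.1, j) (fun z => S z k.2) aa ≤
        ε * X := by
    rintro ⟨i, r⟩ hk
    rw [mem_product, mem_range] at hk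
    have hi : i < I := hk.1
    set a : ℝ := aI s₁ s₂ I i with ha
    set b : ℝ := aI s₁ s₂ I (i + 1) with hb
    have hab : a < b := by
      rw [ha, hb]; unfold aI
      push_cast
      have : 0 < (s₂ - s₁) / I := div_pos (by linarith) hI'
      have e : ((i : ℝ) + 1) * (s₂ - s₁) / I = i * (s₂ - s₁) / I + (s₂ - s₁) / I := by ring
      rw [e]; linarith
    have ha0 : s₁ ≤ a := by
      rw [ha]; unfold aI
      have : 0 ≤ (i : ℝ) * (s₂ - s₁) / I := div_nonneg (mul_nonneg (by positivity) (by linarith)) hI'.le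
      linarith
    have hb1 : b ≤ s₂ := by
      rw [hb]; unfold aI
      push_cast
      have : ((i : ℝ) + 1) * (s₂ - s₁) / I ≤ s₂ - s₁ := by
        rw [div_le_iff₀ hI']
        have h3 : ((i : ℝ) + 1) ≤ I := by exact_mod_cast hi
        nlinarith
      linarith
    have hb0 : 0 < b := by linarith
    obtain ⟨H, hH, X₀, h2⟩ := h1 M (fun z => S z r) hF.M1 (hF.cls r).per (a / b)
      (div_pos (by linarith) hb0) ((div_lt_one hb0).2 hab) ε hε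
    refine ⟨H / b, ?_, max (X₀ / b) 1, fun X hX n hn hnX => ?_⟩
    · rw [le_div_iff₀ hb0]; linarith
    have hX1 : 1 ≤ X := (le_max_right _ _).trans hX
    have hX2 : X₀ ≤ b * X := by
      have := (le_max_left (X₀ / b) 1).trans hX
      rw [div_le_iff₀ hb0] at this
      linarith
    have hX3 : n * H ≤ b * X := by
      rw [← mul_div_assoc, div_le_iff₀ hb0] at hnX
      linarith
    have h3 := h2 (b * X) hX2 n hn hX3
    have h4 : ∀ j : ℕ, (cel (An s₁ s₂ X) (idx s₁ s₂ X I n) (i, j)).filter (fun z => S z r) =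
        (pball 0 1 (b * X)).filter (fun z => a / b * (b * X) < (nm z : ℝ) ∧ S z r ∧
          aix n z = (j : ℤ)) := by
      intro j
      ext z
      have e0 : a / b * (b * X) = a * X := by field_simp
      rw [mem_filter, mem_cel, mem_filter, mem_An, mem_pball hD01, e0]
      constructor
      · rintro ⟨⟨⟨⟨p1, p2⟩, p3, p4⟩, p5⟩, p6⟩
        unfold idx at p5
        simp only [Prod.mk.injEq] at p5
        have q1 := (shell_iff hI (by linarith) h12 p3 i).1 p5.1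
        refine ⟨⟨p1, q1.2⟩, q1.1, p6, ?_⟩
        obtain ⟨j', -, hj'⟩ := aix_range (n := n) z
        have := p5.2
        rw [hj'] at this ⊢
        simpa using this
      · rintro ⟨⟨p1, p2⟩, p3, p4, p5⟩
        have q1 : s₁ * X < (nm z : ℝ) := by
          refine lt_of_le_of_lt ?_ p3
          exact mul_le_mul_of_nonneg_right ha0 (by linarith)
        have q2 : (nm z : ℝ) ≤ s₂ * X :=
          p2.trans (mul_le_mul_of_nonneg_right hb1 (by linarith))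
        have q3 : (nm z : ℝ) ≤ X := q2.trans (by nlinarith)
        refine ⟨⟨⟨⟨p1, q3⟩, q1, q2⟩, ?_⟩, p4⟩
        unfold idx
        simp only [Prod.mk.injEq]
        refine ⟨(shell_iff hI (by linarith) h12 q1 i).2 ⟨p3, p2⟩, ?_⟩
        rw [p5]; simp
    have h5 : ∑ j ∈ range (n + 1),
        absS (An s₁ s₂ X) (idx s₁ s₂ X I n) (i, j) (fun z => S z r) aa ≤
        ε * (b * X) := by
      refine le_trans (le_of_eq ?_) h3
      refine sum_congr rfl fun j _ => ?_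
      unfold absS
      rw [h4 j]
    refine h5.trans ?_
    have : b * X ≤ X := by nlinarith
    exact mul_le_mul_of_nonneg_left this hε.le
  obtain ⟨H, hH, X₀, h2⟩ := fin_comb (range I ×ˢ RR M) _ key
  refine ⟨H, hH, X₀, fun X hX n hn hnX => ?_⟩
  refine le_trans (le_of_eq ?_) (h2 X hX n hn hnX)
  rw [sum_product, sum_product]
  refine sum_congr rfl fun i _ => ?_
  rw [sum_comm]

open scoped Classical in
lemma one_cellX {aa : Gi → ℝ} (ha : ∀ z, |aa z| ≤ 1) {K : ℕ} {κ s₁ s₂ C δ α η : ℝ} {Q : ℕ} {X : ℝ} {I n : ℕ}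
    (L : Lev K κ s₁ s₂ C δ α η Q X I n) {M : ℕ} {S : Gi → Gi → Prop} (hF : Fam M S)
    {e : Gi × Gi} (he : e ∈ good K κ Q X) {w : Gi} (hw : w ∈ cw X s₁ s₂ e.1 e.2) (p : ℕ × ℕ) :
    |∑ z ∈ cel (cw X s₁ s₂ e.1 e.2) (idx s₁ s₂ X I n) p,
      (if δ * Q ≤ (dt z w : ℝ) ∧ S z w then aa z * kk Q X z w else 0)| ≤
      (C * Q) * absS (cw X s₁ s₂ e.1 e.2) (idx s₁ s₂ X I n) p (fun z => S z w)
        aa +
      ∑ z ∈ cel (cw X s₁ s₂ e.1 e.2) (idx s₁ s₂ X I n) p, (η +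
        if 0 < (dt z w : ℝ) ∧ (dt z w : ℝ) < δ * Q then C * Q else 0) := by
  have hQ' : (1 : ℝ) ≤ Q := by exact_mod_cast L.hQ
  have hC1 := L.hC.one
  have hδ := L.hδ
  have hX0 : 0 < X := by linarith [L.hX1]
  apply cellA (cw X s₁ s₂ e.1 e.2) (idx s₁ s₂ X I n) p (fun z => S z w)
        (fun z => (dt z w : ℝ)) (fun z => kk Q X z w) aa L.hη (by positivity)
        (fun z => ha z) (by positivity)
  · intro z hz hS hd
    rw [mem_cel] at hz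
    exact kk_le L.hC L.hQ L.hX he hz.1 hw hd (hF.xi0 z w hS)
  · intro z hz z' hz' hS hS' hd hd'
    rw [mem_cel] at hz hz'
    exact L.hkk e he z hz.1 z' hz'.1 w hw hd hd' (hz.2.trans hz'.2.symm)
  · intro z hz z' hz' hd
    rw [mem_cel] at hz hz'
    have c1 := (mem_cone.1 (mem_cw.1 hz.1).1).1
    have d1 := (mem_cone.1 (mem_cw.1 hz'.1).1).1
    have f1 := (mem_cone.1 (mem_cw.1 hw).1).1
    have hid := idx_aix (hz.2.trans hz'.2.symm)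
    have := close_pos (w := w) (z := z) (z' := z') (prim_ne_zero f1.1)
          (prim_ne_zero c1.1) (prim_ne_zero d1.1) (X := X) (α := α) (δ := δ) (q := (Q : ℝ)) hX0
          (by linarith) L.hαδ hδ hd c1.2 f1.2 ((aix_close L.hn hid).trans L.hna)
    exact_mod_cast this

/-- the sum over the full cells -/
noncomputable def FFX (aa : Gi → ℝ) (s₁ s₂ X : ℝ) (I n : ℕ) (S : Gi → Gi → Prop) (e : Gi × Gi) (w : Gi) : ℝ :=
  FFa (An s₁ s₂ X) (cw X s₁ s₂ e.1 e.2) (idx s₁ s₂ X I n) (range I ×ˢ range (n + 1))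
    (fun z => S z w) aa

open scoped Classical in
lemma one_pairX {aa : Gi → ℝ} (ha : ∀ z, |aa z| ≤ 1) {K : ℕ} {κ s₁ s₂ C δ α η : ℝ} {Q : ℕ} {X : ℝ} {I n : ℕ}
    (L : Lev K κ s₁ s₂ C δ α η Q X I n) {M : ℕ} {S : Gi → Gi → Prop} (hF : Fam M S)
    {e : Gi × Gi} (he : e ∈ good K κ Q X) {w : Gi} (hw : w ∈ cw X s₁ s₂ e.1 e.2) :
    |∑ z ∈ cw X s₁ s₂ e.1 e.2,
      (if δ * Q ≤ (dt z w : ℝ) ∧ S z w then aa z * aa w * kk Q X z w else 0)| ≤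
      (C * Q) * (C * Real.sqrt Q * (α * Real.sqrt Q)) + (C * Q) * FFX aa s₁ s₂ X I n S e w +
      (η * (C * Q) + C * (δ * Q) * (C * Q)) := by
  have hQ' : (1 : ℝ) ≤ Q := by exact_mod_cast L.hQ
  have hC1 := L.hC.one
  have hδ := L.hδ
  have hα := L.hα
  have hX0 : 0 < X := by linarith [L.hX1]
  have hCQ : 0 ≤ C * Q := by positivity
  have hmaps : ∀ z ∈ cw X s₁ s₂ e.1 e.2, idx s₁ s₂ X I n z ∈ range I ×ˢ range (n + 1) :=
    fun z hz => idx_mem L.hI hX0 L.h12 (cw_An _ _ hz)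
  have e1 : ∑ z ∈ cw X s₁ s₂ e.1 e.2,
      (if δ * Q ≤ (dt z w : ℝ) ∧ S z w then aa z * aa w * kk Q X z w else 0) =
      aa w * ∑ p ∈ range I ×ˢ range (n + 1),
        ∑ z ∈ cel (cw X s₁ s₂ e.1 e.2) (idx s₁ s₂ X I n) p,
      (if δ * Q ≤ (dt z w : ℝ) ∧ S z w then aa z * kk Q X z w else 0) := by
    rw [sum_cel hmaps, mul_sum]
    refine sum_congr rfl fun z _ => ?_
    rw [mul_ite, mul_zero]
    congr 1
    ring
  rw [e1, abs_mul]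
  refine (mul_le_of_le_one_left (abs_nonneg _) (ha w)).trans ?_
  have hsum1 : ∑ p ∈ range I ×ˢ range (n + 1),
      ∑ z ∈ cel (cw X s₁ s₂ e.1 e.2) (idx s₁ s₂ X I n) p, (η +
        if 0 < (dt z w : ℝ) ∧ (dt z w : ℝ) < δ * Q then C * Q else 0) ≤
        η * (C * Q) + C * (δ * Q) * (C * Q) := by
    rw [sum_cel hmaps, sum_add_distrib, sum_const, nsmul_eq_mul]
    refine add_le_add ?_ ?_
    · rw [mul_comm]
      exact mul_le_mul_of_nonneg_left (L.hC.vcard Q X L.hQ L.hX e he) L.hη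
    · exact small_card L.hC L.hQ L.hX he hw (by positivity) (by positivity)
  have hB := cellB (An s₁ s₂ X) (cw X s₁ s₂ e.1 e.2) (cw_An _ _) (idx s₁ s₂ X I n)
      (range I ×ˢ range (n + 1)) (fun z hz => idx_mem L.hI hX0 L.h12 hz) (fun z => S z w)
      (fun w => (dt e.1 w : ℝ) ≤ α * Real.sqrt Q ∨ (dt w e.2 : ℝ) ≤ α * Real.sqrt Q)
      aa (fun z => ha z)
      (near_mem L.hK L.hQ L.hX1 he hα.le L.hn L.hna)
  have hnc0 := L.hC.near Q X L.hQ L.hX e he (α * Real.sqrt Q) (by positivity)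
  have hnc : nc (cw X s₁ s₂ e.1 e.2)
      (fun w => (dt e.1 w : ℝ) ≤ α * Real.sqrt Q ∨ (dt w e.2 : ℝ) ≤ α * Real.sqrt Q) ≤
      C * Real.sqrt Q * (α * Real.sqrt Q) := by
    refine le_trans (le_of_eq ?_) hnc0
    unfold nc
    congr!
  have hsc : |∑ p ∈ range I ×ˢ range (n + 1),
        ∑ z ∈ cel (cw X s₁ s₂ e.1 e.2) (idx s₁ s₂ X I n) p,
      (if δ * Q ≤ (dt z w : ℝ) ∧ S z w then aa z * kk Q X z w else 0)| ≤
      (C * Q) * ∑ p ∈ range I ×ˢ range (n + 1),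
        absS (cw X s₁ s₂ e.1 e.2) (idx s₁ s₂ X I n) p (fun z => S z w) aa +
      ∑ p ∈ range I ×ˢ range (n + 1),
      ∑ z ∈ cel (cw X s₁ s₂ e.1 e.2) (idx s₁ s₂ X I n) p, (η +
        if 0 < (dt z w : ℝ) ∧ (dt z w : ℝ) < δ * Q then C * Q else 0) := by
    refine (abs_sum_le_sum_abs _ _).trans ?_
    rw [mul_sum, ← sum_add_distrib]
    exact sum_le_sum fun p _ => one_cellX ha L hF he hw p
  have k1 := mul_le_mul_of_nonneg_left hB hCQ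
  have k2 := mul_le_mul_of_nonneg_left hnc hCQ
  rw [mul_add] at k1
  unfold FFX
  linarith

open scoped Classical in
lemma all_pairsX {aa : Gi → ℝ} (ha : ∀ z, |aa z| ≤ 1) {K : ℕ} {κ s₁ s₂ C δ α η : ℝ} {Q : ℕ} {X : ℝ} {I n : ℕ}
    (L : Lev K κ s₁ s₂ C δ α η Q X I n) {M : ℕ} {S : Gi → Gi → Prop} (hF : Fam M S) {T : ℝ}
    (hmrs : ∑ p ∈ range I ×ˢ range (n + 1), ∑ r ∈ RR M,
        absS (An s₁ s₂ X) (idx s₁ s₂ X I n) p (fun z => S z r) aa ≤ T) :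
    |∑ e ∈ good K κ Q X, ∑ w ∈ cw X s₁ s₂ e.1 e.2, ∑ z ∈ cw X s₁ s₂ e.1 e.2,
      (if δ * Q ≤ (dt z w : ℝ) ∧ S z w then aa z * aa w * kk Q X z w else 0)| ≤
      (C * (X / Q)) * ((C * Q) * ((C * Q) * (C * Real.sqrt Q * (α * Real.sqrt Q)) +
      (η * (C * Q) + C * (δ * Q) * (C * Q)))) + (C * Q) * ((C * Q) * T) := by
  have hQ' : (1 : ℝ) ≤ Q := by exact_mod_cast L.hQ
  have hC1 := L.hC.one
  have hδ := L.hδ
  have hα := L.hα
  have hη := L.hη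
  have hX0 : 0 < X := by linarith [L.hX1]
  have hCQ : 0 ≤ C * Q := by positivity
  have hCsum := cellC (An s₁ s₂ X) (good K κ Q X) (fun e => cw X s₁ s₂ e.1 e.2)
    (idx s₁ s₂ X I n) (range I ×ˢ range (n + 1)) (RR M) S aa (B := C * Q)
    (fun e he => L.hC.vcard Q X L.hQ L.hX e he) hCQ (RR_spec hF) (by
      intro e he f hf z hze hzf
      have h6 := mem_cone.1 (mem_cw.1 hze).1
      have h7 := mem_cone.1 (mem_cw.1 hzf).1
      exact edge_unique (mem_good.1 he).1 (mem_good.1 hf).1 h6.2.1 h6.2.2 h7.2.1 h7.2.2)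
  have hFs : ∑ e ∈ good K κ Q X, ∑ w ∈ cw X s₁ s₂ e.1 e.2, FFX aa s₁ s₂ X I n S e w ≤ (C * Q) * T :=
    hCsum.trans (mul_le_mul_of_nonneg_left hmrs hCQ)
  obtain ⟨A, hA⟩ : ∃ A : ℝ, A = (C * Q) * (C * Real.sqrt Q * (α * Real.sqrt Q)) +
      (η * (C * Q) + C * (δ * Q) * (C * Q)) := ⟨_, rfl⟩
  have hA0 : 0 ≤ A := by rw [hA]; positivity
  rw [← hA]
  have hconst : ∑ e ∈ good K κ Q X, ∑ _w ∈ cw X s₁ s₂ e.1 e.2, A ≤
      (C * (X / Q)) * ((C * Q) * A) := by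
    calc ∑ e ∈ good K κ Q X, ∑ _w ∈ cw X s₁ s₂ e.1 e.2, A ≤
          ∑ _e ∈ good K κ Q X, (C * Q) * A := by
          refine sum_le_sum fun e he => ?_
          rw [sum_const, nsmul_eq_mul]
          exact mul_le_mul_of_nonneg_right (L.hC.vcard Q X L.hQ L.hX e he) hA0
      _ = ((good K κ Q X).card : ℝ) * ((C * Q) * A) := by rw [sum_const, nsmul_eq_mul]
      _ ≤ _ := mul_le_mul_of_nonneg_right (L.hC.gcard Q X L.hQ L.hX) (by positivity)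
  have h1 : |∑ e ∈ good K κ Q X, ∑ w ∈ cw X s₁ s₂ e.1 e.2, ∑ z ∈ cw X s₁ s₂ e.1 e.2,
      (if δ * Q ≤ (dt z w : ℝ) ∧ S z w then aa z * aa w * kk Q X z w else 0)| ≤
      ∑ e ∈ good K κ Q X, ∑ w ∈ cw X s₁ s₂ e.1 e.2, (A + (C * Q) * FFX aa s₁ s₂ X I n S e w) := by
    refine (abs_sum_le_sum_abs _ _).trans (sum_le_sum fun e he => ?_)
    refine (abs_sum_le_sum_abs _ _).trans (sum_le_sum fun w hw => ?_)
    have := one_pairX ha L hF he hw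
    linarith
  refine h1.trans ?_
  have h2 : ∑ e ∈ good K κ Q X, ∑ w ∈ cw X s₁ s₂ e.1 e.2,
      (A + (C * Q) * FFX aa s₁ s₂ X I n S e w) =
      (∑ e ∈ good K κ Q X, ∑ _w ∈ cw X s₁ s₂ e.1 e.2, A) +
      (C * Q) * ∑ e ∈ good K κ Q X, ∑ w ∈ cw X s₁ s₂ e.1 e.2, FFX aa s₁ s₂ X I n S e w := by
    rw [mul_sum, ← sum_add_distrib]
    refine sum_congr rfl fun e _ => ?_
    rw [mul_sum, ← sum_add_distrib]
  rw [h2]
  exact add_le_add hconst (mul_le_mul_of_nonneg_left hFs hCQ)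

open scoped Classical in
theorem coreX {aa : Gi → ℝ} (ha : ∀ z, |aa z| ≤ 1) (h1 : Mrs aa) (h3 : S_JV) {K : ℕ} {κ s₁ s₂ C : ℝ} (hK : 1 ≤ K) (hs₁ : 0 < s₁)
    (h12 : s₁ < s₂) (hs₂ : s₂ ≤ 1) (hC : Cst K κ s₁ s₂ C) {M : ℕ} {S : Gi → Gi → Prop}
    (hF : Fam M S) {δ ε : ℝ} (hδ : 0 < δ) (hε : 0 < ε) :
    ∃ Q₀ : ℕ, ∀ Q : ℕ, Q₀ ≤ Q → ∃ X₀ : ℝ, ∀ X : ℝ, X₀ ≤ X →
      |∑ e ∈ good K κ Q X, ∑ w ∈ cw X s₁ s₂ e.1 e.2, ∑ z ∈ cw X s₁ s₂ e.1 e.2,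
        (if δ * Q ≤ (dt z w : ℝ) ∧ S z w then aa z * aa w * kk Q X z w else 0)| ≤
      (C ^ 4 * δ + ε) * X * (Q : ℝ) ^ 2 := by
  have hC1 := hC.one
  have hC0 : 0 < C := by linarith
  have hK' : (1 : ℝ) ≤ K := by exact_mod_cast hK
  have hpi := Real.pi_pos
  obtain ⟨εJ, hεJ0, hεJ⟩ : ∃ εJ : ℝ, 0 < εJ ∧ C ^ 3 * εJ = ε / 3 :=
    ⟨ε / (3 * C ^ 3), by positivity, by field_simp⟩
  obtain ⟨ε₁, hε₁, hJV⟩ := h3 C s₁ δ εJ hC0 hs₁ hδ hεJ0
  obtain ⟨α, hα0, hα1, hα2, hα3⟩ : ∃ α : ℝ, 0 < α ∧ α ≤ ε₁ ∧ α ≤ δ / 2 ∧ C ^ 4 * α ≤ ε / 3 := by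
    refine ⟨min (min ε₁ (δ / 2)) (ε / (3 * C ^ 4)), by positivity,
      (min_le_left _ _).trans (min_le_left _ _), (min_le_left _ _).trans (min_le_right _ _), ?_⟩
    calc C ^ 4 * min (min ε₁ (δ / 2)) (ε / (3 * C ^ 4)) ≤ C ^ 4 * (ε / (3 * C ^ 4)) := by
          gcongr
          exact min_le_right _ _
      _ = ε / 3 := by field_simp
  obtain ⟨I, hI1, hIε⟩ : ∃ I : ℕ, 1 ≤ I ∧ (s₂ - s₁) / I ≤ ε₁ := by
    refine ⟨⌈1 / ε₁⌉₊ + 1, by omega, ?_⟩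
    have hI0 : (0 : ℝ) < ((⌈1 / ε₁⌉₊ + 1 : ℕ) : ℝ) := by positivity
    rw [div_le_iff₀ hI0]
    have h : 1 / ε₁ ≤ ((⌈1 / ε₁⌉₊ + 1 : ℕ) : ℝ) := by
      push_cast
      linarith [Nat.le_ceil (1 / ε₁)]
    rw [div_le_iff₀ hε₁] at h
    linarith
  set N : ℝ := ((range I ×ˢ RR M).card : ℝ) with hN
  have hN0 : 0 ≤ N := by positivity
  obtain ⟨εM, hεM0, hεM⟩ : ∃ εM : ℝ, 0 < εM ∧ C ^ 2 * N * εM ≤ ε / 3 := by
    refine ⟨ε / (3 * C ^ 2 * (N + 1)), by positivity, ?_⟩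
    rw [mul_div_assoc', div_le_div_iff₀ (by positivity) (by norm_num)]
    nlinarith [mul_pos hε (by positivity : 0 < C ^ 2)]
  obtain ⟨H, hH, X₁, hMRS⟩ := mrs_allX h1 hF hs₁ h12 hs₂ hI1 hεM0
  refine ⟨⌈4 * Real.pi * H / α⌉₊ + 1, fun Q hQ0 => ?_⟩
  have hQ : 1 ≤ Q := by omega
  have hQ' : (1 : ℝ) ≤ Q := by exact_mod_cast hQ
  have hQH : 4 * Real.pi * H / α ≤ Q := by
    refine (Nat.le_ceil _).trans ?_
    exact_mod_cast (by omega : ⌈4 * Real.pi * H / α⌉₊ ≤ Q)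
  refine ⟨max (max X₁ (2 * H)) (max (2 * (K * Q : ℝ)) (Q / ε₁)), fun X hX => ?_⟩
  have hX1 : X₁ ≤ X := ((le_max_left _ _).trans (le_max_left _ _)).trans hX
  have hX2 : 2 * H ≤ X := ((le_max_right _ _).trans (le_max_left _ _)).trans hX
  have hX3 : 2 * (K * Q : ℝ) ≤ X := ((le_max_left _ _).trans (le_max_right _ _)).trans hX
  have hX4 : (Q : ℝ) / ε₁ ≤ X := ((le_max_right _ _).trans (le_max_right _ _)).trans hX
  have hXQ : (Q : ℝ) ≤ ε₁ * X := by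
    rw [div_le_iff₀ hε₁] at hX4
    linarith
  have hXone : 1 ≤ X := by nlinarith
  have hX0 : 0 < X := by linarith
  obtain ⟨n, hn1, hna, hnH⟩ : ∃ n : ℕ, 1 ≤ n ∧ 2 * Real.pi / n ≤ α * Q / X ∧ n * H ≤ X := by
    have hn0 : 0 < 2 * Real.pi * X / (α * Q) := by positivity
    have hn1 : 1 ≤ ⌈2 * Real.pi * X / (α * Q)⌉₊ := Nat.ceil_pos.2 hn0
    have hn' : (0 : ℝ) < ⌈2 * Real.pi * X / (α * Q)⌉₊ := by exact_mod_cast hn1
    refine ⟨⌈2 * Real.pi * X / (α * Q)⌉₊, hn1, ?_, ?_⟩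
    · rw [div_le_div_iff₀ hn' hX0]
      have h := Nat.le_ceil (2 * Real.pi * X / (α * Q))
      rw [div_le_iff₀ (by positivity)] at h
      linarith
    · have h : (⌈2 * Real.pi * X / (α * Q)⌉₊ : ℝ) < 2 * Real.pi * X / (α * Q) + 1 :=
        Nat.ceil_lt_add_one hn0.le
      have h2 : 2 * Real.pi * X / (α * Q) * H ≤ X / 2 := by
        rw [div_le_iff₀ hα0] at hQH
        have e : 2 * Real.pi * X / (α * Q) * H = (4 * Real.pi * H) * X / (2 * (α * Q)) := by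
          rw [div_mul_eq_mul_div, div_eq_div_iff (by positivity) (by positivity)]
          ring
        rw [e, div_le_div_iff₀ (by positivity) (by norm_num)]
        have h3 := mul_le_mul_of_nonneg_right hQH hX0.le
        linarith
      have h4 : (⌈2 * Real.pi * X / (α * Q)⌉₊ : ℝ) * H ≤
          (2 * Real.pi * X / (α * Q) + 1) * H := mul_le_mul_of_nonneg_right h.le (by linarith)
      linarith
  have hmrs := hMRS X hX1 n hn1 hnH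
  have L : Lev K κ s₁ s₂ C δ α (εJ * Q) Q X I n := by
    refine ⟨hK, hs₁, h12, hs₂, hC, hδ, by positivity, hα0, by linarith, hQ, hX3, hXone, hI1, hn1,
      hna, ?_⟩
    intro e he z hz z' hz' w hw hd hd' hid
    have he1 := (mem_good.1 he).1
    obtain ⟨c1, c2, c3⟩ := mem_cw.1 hz
    obtain ⟨d1, d2, d3⟩ := mem_cw.1 hz'
    obtain ⟨f1, f2, f3⟩ := mem_cw.1 hw
    have g1 := idx_shell hI1 hX0 h12 c2 d2 hid
    have g2 := (aix_close hn1 (idx_aix hid)).trans hna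
    have g3 : (s₂ - s₁) / I * X ≤ ε₁ * X := mul_le_mul_of_nonneg_right hIε hX0.le
    have g4 : α * Q / X ≤ ε₁ * Q / X := by gcongr
    have g5 : 0 ≤ ε₁ * X := by positivity
    have g6 : 0 ≤ ε₁ * Q / X := by positivity
    refine hJV Q X z w z' w hQ (by linarith) hXQ ?_ hd (hC.dtle Q X hQ hX3 e he z hz w hw) hd'
      (hC.dtle Q X hQ hX3 e he z' hz' w hw) (g1.trans g3) ?_ (ip_cone he1 c1 f1)
      (ip_cone he1 d1 f1) (g2.trans g4) ?_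
    · intro v hv
      simp only [Set.mem_insert_iff, Set.mem_singleton_iff] at hv
      rcases hv with hv | hv | hv | hv <;> rw [hv]
      · exact ⟨c2, (mem_cone.1 c1).1.2⟩
      · exact ⟨f2, (mem_cone.1 f1).1.2⟩
      · exact ⟨d2, (mem_cone.1 d1).1.2⟩
      · exact ⟨f2, (mem_cone.1 f1).1.2⟩
    · rw [sub_self, abs_zero]; exact g5
    · rw [sub_self, abs_zero]; exact g6
  refine (all_pairsX ha L hF hmrs).trans ?_
  have hsq := Real.mul_self_sqrt (by linarith : (0 : ℝ) ≤ Q)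
  have hA₁e : C * Q * (C * Real.sqrt Q * (α * Real.sqrt Q)) = C ^ 2 * α * (Q : ℝ) ^ 2 := by
    calc C * Q * (C * Real.sqrt Q * (α * Real.sqrt Q)) =
        C ^ 2 * α * Q * (Real.sqrt Q * Real.sqrt Q) := by ring
      _ = _ := by rw [hsq]; ring
  rw [hA₁e]
  have t6 : 0 ≤ X * (Q : ℝ) ^ 2 := by positivity
  have t1 : (C * (X / Q)) * ((C * Q) * (C ^ 2 * α * (Q : ℝ) ^ 2 +
      (εJ * Q * (C * Q) + C * (δ * Q) * (C * Q)))) =
      (C ^ 4 * α + C ^ 3 * εJ + C ^ 4 * δ) * (X * (Q : ℝ) ^ 2) := by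
    field_simp
    ring
  have t4 : (C * Q) * ((C * Q) * (N * (εM * X))) = (C ^ 2 * N * εM) * (X * (Q : ℝ) ^ 2) := by
    ring
  rw [t1, t4, hεJ]
  have t7 := mul_le_mul_of_nonneg_right hεM t6
  have t8 := mul_le_mul_of_nonneg_right hα3 t6
  linarith

lemma aa_aa {aa : Gi → ℝ} (ha : ∀ z, |aa z| ≤ 1) (z w : Gi) (x : ℝ) : |aa z * aa w * x| ≤ |x| := by
  rw [abs_mul, abs_mul]
  have h1 := ha z
  have h2 := ha w
  have h3 : |aa z| * |aa w| ≤ 1 := mul_le_one₀ h1 (abs_nonneg _) h2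
  calc |aa z| * |aa w| * |x| ≤ 1 * |x| := mul_le_mul_of_nonneg_right h3 (abs_nonneg _)
    _ = |x| := one_mul _

open scoped Classical in
lemma bound_a1X {aa : Gi → ℝ} (ha : ∀ z, |aa z| ≤ 1) {K : ℕ} {κ s₁ s₂ C Cφ δ η : ℝ} {h₀ Q : ℕ} {X thr : ℝ}
    (L : Lev2 K κ s₁ s₂ C Cφ δ η h₀ Q X thr) :
    ∑ e ∈ good K κ Q X, ∑ w ∈ cw X s₁ s₂ e.1 e.2, ∑ z ∈ cw X s₁ s₂ e.1 e.2,
      |if thr ≤ (dt z w : ℝ) ∧ ¬ δ * Q ≤ (dt z w : ℝ) then aa z * aa w * G0 Q X z w else 0| ≤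
      (C ^ 4 * Cφ * δ) * (X * (Q : ℝ) ^ 2) := by
  have hC1 := L.hC.one
  have hQ' : (1 : ℝ) ≤ Q := by exact_mod_cast L.hQ
  have hX1 := L.hX1
  have hδ := L.hδ
  have hφ1 := L.hφ1
  refine (weight_sum L.hC L.hQ L.hX L.hX1 (fun m => (C * Q) * ((m : ℝ) / Nat.totient m))
    (fun m => by positivity) ⌊δ * Q⌋₊ _ ?_).trans ?_
  · intro e he w hw z hz
    by_cases h : thr ≤ (dt z w : ℝ) ∧ ¬ δ * Q ≤ (dt z w : ℝ)
    · rw [if_pos h]
      refine (aa_aa ha z w _).trans ?_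
      have h0 : (0 : ℝ) < (dt z w : ℝ) := L.thr0.trans_le h.1
      have h0' : 0 < dt z w := by exact_mod_cast h0
      rw [if_pos ⟨h0', floor_mem h0' (not_le.1 h.2).le⟩, toNat_cast h0', G0_eq Q X h0', abs_mul,
        abs_mul, abs_of_nonneg (le_xi z w), abs_of_nonneg (by positivity :
          0 ≤ (dt z w : ℝ) / (Nat.totient (dt z w).toNat : ℝ))]
      have h1 := L.hC.jb Q X L.hQ L.hX e he z hz w hw h0'
      have h2 : 0 ≤ (dt z w : ℝ) / (Nat.totient (dt z w).toNat : ℝ) := by positivity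
      calc (1 + (xi z w : ℝ)) * ((dt z w : ℝ) / (Nat.totient (dt z w).toNat : ℝ)) *
            |kk Q X z w| = (1 + (xi z w : ℝ)) * |kk Q X z w| *
            ((dt z w : ℝ) / (Nat.totient (dt z w).toNat : ℝ)) := by ring
        _ ≤ _ := mul_le_mul_of_nonneg_right h1 h2
    · rw [if_neg h, abs_zero]
      split_ifs
      · positivity
      · exact le_rfl
  · rw [← mul_sum]
    have h1 := L.hφ ⌊δ * Q⌋₊
    have h2 : ((⌊δ * Q⌋₊ : ℕ) : ℝ) ≤ δ * Q := Nat.floor_le (by positivity)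
    have h3 : ∑ D ∈ Icc 1 ⌊δ * Q⌋₊, (D : ℝ) / Nat.totient D ≤ Cφ * (δ * Q) :=
      h1.trans (mul_le_mul_of_nonneg_left h2 (by linarith))
    calc C ^ 3 * X * (C * Q * ∑ D ∈ Icc 1 ⌊δ * Q⌋₊, (D : ℝ) / Nat.totient D) ≤
        C ^ 3 * X * (C * Q * (Cφ * (δ * Q))) := by gcongr
      _ = _ := by ring

open scoped Classical in
lemma bound_a2X {aa : Gi → ℝ} (ha : ∀ z, |aa z| ≤ 1) {K : ℕ} {κ s₁ s₂ C Cφ δ η : ℝ} {h₀ Q : ℕ} {X thr : ℝ}
    (L : Lev2 K κ s₁ s₂ C Cφ δ η h₀ Q X thr) :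
    ∑ e ∈ good K κ Q X, ∑ w ∈ cw X s₁ s₂ e.1 e.2, ∑ z ∈ cw X s₁ s₂ e.1 e.2,
      |if δ * Q ≤ (dt z w : ℝ) then aa z * aa w *
        ((1 + (xi z w : ℝ)) * tl h₀ (dt z w).toNat * kk Q X z w) else 0| ≤
      (C ^ 5 * η) * (X * (Q : ℝ) ^ 2) := by
  have hC1 := L.hC.one
  have hQ' : (1 : ℝ) ≤ Q := by exact_mod_cast L.hQ
  have hX1 := L.hX1
  have hδ := L.hδ
  have hη := L.hη
  refine (weight_sum L.hC L.hQ L.hX L.hX1 (fun m => (C * Q) * tl h₀ m)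
    (fun m => mul_nonneg (by positivity) (tl_nonneg _ _)) ⌊C * Q⌋₊ _ ?_).trans ?_
  · intro e he w hw z hz
    by_cases h : δ * Q ≤ (dt z w : ℝ)
    · rw [if_pos h]
      refine (aa_aa ha z w _).trans ?_
      have h0 : (0 : ℝ) < (dt z w : ℝ) := (by positivity : 0 < δ * Q).trans_le h
      have h0' : 0 < dt z w := by exact_mod_cast h0
      have h3 := L.hC.dtle Q X L.hQ L.hX e he z hz w hw
      rw [if_pos ⟨h0', floor_mem h0' h3⟩, abs_mul, abs_mul, abs_of_nonneg (le_xi z w),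
        abs_of_nonneg (tl_nonneg _ _)]
      have h1 := L.hC.jb Q X L.hQ L.hX e he z hz w hw h0'
      calc (1 + (xi z w : ℝ)) * tl h₀ (dt z w).toNat * |kk Q X z w| =
            (1 + (xi z w : ℝ)) * |kk Q X z w| * tl h₀ (dt z w).toNat := by ring
        _ ≤ _ := mul_le_mul_of_nonneg_right h1 (tl_nonneg _ _)
    · rw [if_neg h, abs_zero]
      split_ifs
      · exact mul_nonneg (by positivity) (tl_nonneg _ _)
      · exact le_rfl
  · rw [← mul_sum]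
    have h1 := L.htl ⌊C * Q⌋₊
    have h2 : ((⌊C * Q⌋₊ : ℕ) : ℝ) ≤ C * Q := Nat.floor_le (by positivity)
    have h3 : ∑ D ∈ Icc 1 ⌊C * Q⌋₊, tl h₀ D ≤ η * (C * Q) :=
      h1.trans (mul_le_mul_of_nonneg_left h2 (by linarith))
    calc C ^ 3 * X * (C * Q * ∑ D ∈ Icc 1 ⌊C * Q⌋₊, tl h₀ D) ≤
        C ^ 3 * X * (C * Q * (η * (C * Q))) := by gcongr
      _ = _ := by ring

open scoped Classical in
/-- the three parts of one term -/
lemma term_splitX (aa : Gi → ℝ) {δ thr X : ℝ} {h₀ Q : ℕ} (hδ : 0 < δ * Q) (h1 : thr ≤ δ * Q) (z w : Gi) :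
    (if thr ≤ (dt z w : ℝ) then aa z * aa w * G0 Q X z w else 0) =
    (if thr ≤ (dt z w : ℝ) ∧ ¬ δ * Q ≤ (dt z w : ℝ) then aa z * aa w * G0 Q X z w else 0) +
    ∑ k ∈ ((Icc 1 h₀).filter Squarefree) ×ˢ range 2, (1 + (k.2 : ℝ)) / Nat.totient k.1 *
      (if δ * Q ≤ (dt z w : ℝ) ∧ SS k.1 (k.2 : ℤ) z w then
        aa z * aa w * kk Q X z w else 0) +
    (if δ * Q ≤ (dt z w : ℝ) then aa z * aa w *
        ((1 + (xi z w : ℝ)) * tl h₀ (dt z w).toNat * kk Q X z w) else 0) := by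
  by_cases h : δ * Q ≤ (dt z w : ℝ)
  · have h0 : (0 : ℝ) < (dt z w : ℝ) := hδ.trans_le h
    have h0' : 0 < dt z w := by exact_mod_cast h0
    rw [if_pos (h1.trans h), if_neg (fun k => k.2 h), if_pos h, zero_add, G0_split Q X h0' h₀,
      mul_add, mul_sum]
    congr 1
    refine sum_congr rfl fun k _ => ?_
    by_cases hS : SS k.1 (k.2 : ℤ) z w
    · rw [if_pos hS, if_pos ⟨h, hS⟩]; ring
    · rw [if_neg hS, if_neg (fun k => hS k.2)]; ring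
  · have e1 : ∑ k ∈ ((Icc 1 h₀).filter Squarefree) ×ˢ range 2,
        (1 + (k.2 : ℝ)) / Nat.totient k.1 *
      (if δ * Q ≤ (dt z w : ℝ) ∧ SS k.1 (k.2 : ℤ) z w then
        aa z * aa w * kk Q X z w else 0) = 0 := by
      apply sum_eq_zero
      intro k _
      rw [if_neg (fun k => h k.1), mul_zero]
    rw [e1, if_neg h, add_zero, add_zero]
    by_cases h2 : thr ≤ (dt z w : ℝ)
    · rw [if_pos h2, if_pos ⟨h2, h⟩]
    · rw [if_neg h2, if_neg (fun k => h2 k.1)]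

theorem btmx (h2 : S_JB) (h3 : S_JV) (h4 : S_LN) (h5 : S_DTB) :
    Pool.Agent.W251.EX.S_BTMX := by
  classical
  intro aa ha h1 K κ s₁ s₂ ε hK hκ hs₁ h12 hs₂ hε
  obtain ⟨C, hC⟩ := exists_cst (s₂ := s₂) h2 h4 h5 hK hκ hs₁ hs₂
  have hC1 := hC.one
  have hK' : (1 : ℝ) ≤ K := by exact_mod_cast hK
  obtain ⟨Cφ, hCφ, havg⟩ := avg_le
  obtain ⟨η, hη, hη'⟩ : ∃ η : ℝ, 0 < η ∧ C ^ 5 * η ≤ ε / 4 := by
    refine ⟨ε / (4 * C ^ 5), by positivity, le_of_eq ?_⟩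
    field_simp
  obtain ⟨h₀, htail⟩ := tail_small hη
  obtain ⟨N, hN⟩ : ∃ N : ℝ, N = ((((Icc 1 h₀).filter Squarefree) ×ˢ range 2).card : ℝ) := ⟨_, rfl⟩
  have hN0 : 0 ≤ N := by rw [hN]; positivity
  obtain ⟨δ, hδ, hδ'⟩ : ∃ δ : ℝ, 0 < δ ∧ (2 * N * C ^ 4 + C ^ 4 * Cφ) * δ ≤ ε / 4 := by
    have : 0 < 2 * N * C ^ 4 + C ^ 4 * Cφ := by positivity
    refine ⟨ε / (4 * (2 * N * C ^ 4 + C ^ 4 * Cφ)), by positivity, le_of_eq ?_⟩
    field_simp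
  obtain ⟨ε', hε', hε''⟩ : ∃ ε' : ℝ, 0 < ε' ∧ 2 * N * ε' ≤ ε / 4 := by
    refine ⟨ε / (8 * (N + 1)), by positivity, ?_⟩
    rw [mul_div_assoc', div_le_div_iff₀ (by positivity) (by norm_num)]
    nlinarith
  obtain ⟨Q₁, hQ₁⟩ := fin_comb2 (((Icc 1 h₀).filter Squarefree) ×ˢ range 2)
    (fun k Q X => |∑ e ∈ good K κ Q X, ∑ w ∈ cw X s₁ s₂ e.1 e.2, ∑ z ∈ cw X s₁ s₂ e.1 e.2,
        (if δ * Q ≤ (dt z w : ℝ) ∧ SS k.1 (k.2 : ℤ) z w then
          aa z * aa w * kk Q X z w else 0)| ≤ (C ^ 4 * δ + ε') * X * (Q : ℝ) ^ 2)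
    (by
      rintro ⟨h, v⟩ hk
      rw [mem_product, mem_filter, mem_Icc] at hk
      exact coreX ha h1 h3 hK hs₁ h12 hs₂ hC (fam h hk.1.1.1 (v : ℤ) (by positivity)) hδ hε')
  refine ⟨max Q₁ (⌈Real.exp (1 + 1 / δ)⌉₊), fun Q hQ => ?_⟩
  have hQa : Q₁ ≤ Q := (le_max_left _ _).trans hQ
  have hQb : Real.exp (1 + 1 / δ) ≤ Q :=
    (Nat.le_ceil _).trans (by exact_mod_cast (le_max_right _ _).trans hQ)
  have hQpos : (0 : ℝ) < Q := (Real.exp_pos _).trans_le hQb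
  have hQ1 : 1 ≤ Q := by exact_mod_cast hQpos
  have hlog : 1 + 1 / δ ≤ Real.log Q := (Real.le_log_iff_exp_le hQpos).2 hQb
  have hδi : 0 < 1 / δ := by positivity
  have hthr : (Q : ℝ) / Real.log Q ^ 3 ≤ δ * Q := by
    have g1 : 1 ≤ Real.log Q := by linarith
    have g2 : 1 / δ ≤ Real.log Q ^ 3 := by
      calc 1 / δ ≤ Real.log Q := by linarith
        _ = Real.log Q ^ 1 := (pow_one _).symm
        _ ≤ Real.log Q ^ 3 := pow_le_pow_right₀ g1 (by norm_num)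
    rw [div_le_iff₀ (by positivity)]
    rw [div_le_iff₀ hδ] at g2
    nlinarith [mul_le_mul_of_nonneg_right g2 hQpos.le]
  have hthr0 : 0 < (Q : ℝ) / Real.log Q ^ 3 := by
    have : 0 < Real.log Q := by linarith
    positivity
  obtain ⟨X₁, hX₁⟩ := hQ₁ Q hQa
  refine ⟨max X₁ (2 * (K * Q : ℝ)), fun X hX => ?_⟩
  have hXa : X₁ ≤ X := (le_max_left _ _).trans hX
  have hXb : 2 * (K * Q : ℝ) ≤ X := (le_max_right _ _).trans hX
  have hQ1' : (1 : ℝ) ≤ Q := by exact_mod_cast hQ1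
  have hX1 : 1 ≤ X := by nlinarith
  have hcore := hX₁ X hXa
  have L : Lev2 K κ s₁ s₂ C Cφ δ η h₀ Q X ((Q : ℝ) / Real.log Q ^ 3) :=
    ⟨hC, havg, hCφ, hη, hδ, htail, hQ1, hXb, hX1, hthr0, hthr⟩
  have b1 := bound_a1X ha L
  have b2 := bound_a2X ha L
  have hδQ : 0 < δ * Q := by positivity
  have e1 : (∑ e ∈ good K κ Q X, ∑ w₁ ∈ cw X s₁ s₂ e.1 e.2, ∑ w₂ ∈ cw X s₁ s₂ e.1 e.2,
      if (Q : ℝ) / Real.log Q ^ 3 ≤ (dt w₁ w₂ : ℝ) then
        aa w₁ * aa w₂ * G0 Q X w₁ w₂ else 0) =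
      (∑ e ∈ good K κ Q X, ∑ w ∈ cw X s₁ s₂ e.1 e.2, ∑ z ∈ cw X s₁ s₂ e.1 e.2,
        (if (Q : ℝ) / Real.log Q ^ 3 ≤ (dt z w : ℝ) ∧ ¬ δ * Q ≤ (dt z w : ℝ) then
          aa z * aa w * G0 Q X z w else 0)) +
      (∑ k ∈ ((Icc 1 h₀).filter Squarefree) ×ˢ range 2, (1 + (k.2 : ℝ)) / Nat.totient k.1 *
        ∑ e ∈ good K κ Q X, ∑ w ∈ cw X s₁ s₂ e.1 e.2, ∑ z ∈ cw X s₁ s₂ e.1 e.2,
      (if δ * Q ≤ (dt z w : ℝ) ∧ SS k.1 (k.2 : ℤ) z w then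
        aa z * aa w * kk Q X z w else 0)) +
      (∑ e ∈ good K κ Q X, ∑ w ∈ cw X s₁ s₂ e.1 e.2, ∑ z ∈ cw X s₁ s₂ e.1 e.2,
        (if δ * Q ≤ (dt z w : ℝ) then aa z * aa w *
        ((1 + (xi z w : ℝ)) * tl h₀ (dt z w).toNat * kk Q X z w) else 0)) := by
    simp only [mul_sum]
    rw [sum_comm (s := ((Icc 1 h₀).filter Squarefree) ×ˢ range 2), ← sum_add_distrib,
      ← sum_add_distrib]
    refine sum_congr rfl fun e _ => ?_
    rw [sum_comm (s := ((Icc 1 h₀).filter Squarefree) ×ˢ range 2), ← sum_add_distrib,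
      ← sum_add_distrib, sum_comm]
    refine sum_congr rfl fun w _ => ?_
    rw [sum_comm (s := ((Icc 1 h₀).filter Squarefree) ×ˢ range 2), ← sum_add_distrib,
      ← sum_add_distrib]
    refine sum_congr rfl fun z _ => ?_
    exact term_splitX aa hδQ hthr z w
  rw [e1]
  have k1 : |∑ e ∈ good K κ Q X, ∑ w ∈ cw X s₁ s₂ e.1 e.2, ∑ z ∈ cw X s₁ s₂ e.1 e.2,
        (if (Q : ℝ) / Real.log Q ^ 3 ≤ (dt z w : ℝ) ∧ ¬ δ * Q ≤ (dt z w : ℝ) then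
          aa z * aa w * G0 Q X z w else 0)| ≤ (C ^ 4 * Cφ * δ) * (X * (Q : ℝ) ^ 2) := by
    refine le_trans ?_ b1
    refine (abs_sum_le_sum_abs _ _).trans (sum_le_sum fun e _ => ?_)
    refine (abs_sum_le_sum_abs _ _).trans (sum_le_sum fun w _ => ?_)
    exact abs_sum_le_sum_abs _ _
  have k2 : |∑ e ∈ good K κ Q X, ∑ w ∈ cw X s₁ s₂ e.1 e.2, ∑ z ∈ cw X s₁ s₂ e.1 e.2,
        (if δ * Q ≤ (dt z w : ℝ) then aa z * aa w *
        ((1 + (xi z w : ℝ)) * tl h₀ (dt z w).toNat * kk Q X z w) else 0)| ≤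
      (C ^ 5 * η) * (X * (Q : ℝ) ^ 2) := by
    refine le_trans ?_ b2
    refine (abs_sum_le_sum_abs _ _).trans (sum_le_sum fun e _ => ?_)
    refine (abs_sum_le_sum_abs _ _).trans (sum_le_sum fun w _ => ?_)
    exact abs_sum_le_sum_abs _ _
  have k3 : |∑ k ∈ ((Icc 1 h₀).filter Squarefree) ×ˢ range 2,
        (1 + (k.2 : ℝ)) / Nat.totient k.1 *
        ∑ e ∈ good K κ Q X, ∑ w ∈ cw X s₁ s₂ e.1 e.2, ∑ z ∈ cw X s₁ s₂ e.1 e.2,
      (if δ * Q ≤ (dt z w : ℝ) ∧ SS k.1 (k.2 : ℤ) z w then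
        aa z * aa w * kk Q X z w else 0)| ≤
      N * (2 * ((C ^ 4 * δ + ε') * X * (Q : ℝ) ^ 2)) := by
    refine (abs_sum_le_sum_abs _ _).trans ?_
    rw [hN, ← nsmul_eq_mul]
    refine sum_le_card_nsmul _ _ _ fun k hk => ?_
    have h6 := hcore k hk
    rw [mem_product, mem_filter, mem_Icc, mem_range] at hk
    rw [abs_mul]
    have h7 : (0 : ℝ) ≤ (1 + (k.2 : ℝ)) / Nat.totient k.1 := by positivity
    have h8 : (1 + (k.2 : ℝ)) / Nat.totient k.1 ≤ 2 := by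
      have h9 : (1 : ℝ) ≤ Nat.totient k.1 := by
        have : 0 < Nat.totient k.1 := Nat.totient_pos.2 hk.1.1.1
        exact_mod_cast this
      have h10 : (k.2 : ℝ) ≤ 1 := by
        have : k.2 ≤ 1 := by omega
        exact_mod_cast this
      rw [div_le_iff₀ (by linarith)]
      linarith
    rw [abs_of_nonneg h7]
    exact mul_le_mul h8 h6 (abs_nonneg _) (by norm_num)
  have t6 : 0 ≤ X * (Q : ℝ) ^ 2 := by positivity
  have m1 := mul_le_mul_of_nonneg_right hη' t6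
  have m2 := mul_le_mul_of_nonneg_right hδ' t6
  have m3 := mul_le_mul_of_nonneg_right hε'' t6
  have m4 : 0 ≤ ε * (X * (Q : ℝ) ^ 2) := by positivity
  refine (abs_add_le _ _).trans ?_
  refine (add_le_add_left (abs_add_le _ _) _).trans ?_
  calc _ ≤ ((C ^ 4 * Cφ * δ) * (X * (Q : ℝ) ^ 2) + N * (2 * ((C ^ 4 * δ + ε') * X * (Q : ℝ) ^ 2))) +
        (C ^ 5 * η) * (X * (Q : ℝ) ^ 2) := add_le_add (add_le_add k1 k3) k2
    _ = (2 * N * C ^ 4 + C ^ 4 * Cφ) * δ * (X * (Q : ℝ) ^ 2) + 2 * N * ε' * (X * (Q : ℝ) ^ 2) +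
        C ^ 5 * η * (X * (Q : ℝ) ^ 2) := by ring
    _ ≤ ε * (X * (Q : ℝ) ^ 2) := by linarith
    _ = _ := by ring

end Pool.Agent.W672.EX
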